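import Pool.Agent.FU3.Stmts
import Pool.Agent.Helper9_FU2.TAL
import Pool.Agent.Helper69_FU2.Nqb

/-! FU3, row NQG: few nonzero derivatives. -/

set_option autoImplicit false

open Finset

namespace Pool.Agent.FU3.H56

open Pool.Agent.FUR Pool.Agent.FU2 Pool.Agent.FU3

/-- few nonzero derivatives, from any tail bound -/
theorem nq_of_tail (hPRS : PRSStmt) (hDRF : DRFStmt) (N q : ℕ) (f : BF N) (κ E : ℝ) (hκ : 0 < κ)
    (hE : ∑ S : Finset (Fin N), Real.exp (2 * κ * S.card) * fc (ind f) S ^ 2 ≤ E) :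
    (Nq q f : ℝ) ≤ 2 ^ N * ((2 / κ) ^ q * E) := by
  classical
  set P := powersetCard q (univ : Finset (Fin N)) with hP
  have h2N : (0 : ℝ) < 2 ^ N := by positivity
  have h1 : (Nq q f : ℝ) ≤ ∑ x : Fin N → Bool, ∑ I ∈ P, dv I (ind f) x ^ 2 := by
    unfold Nq
    push_cast
    refine Finset.sum_le_sum fun x _ => ?_
    rw [Finset.card_filter]
    push_cast
    refine Finset.sum_le_sum fun I _ => ?_
    split_ifs with h
    · exact FU2.H69.one_le_dv_sq f I x h
    · positivity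
  have h2 : ∀ I ∈ P, ∑ x : Fin N → Bool, dv I (ind f) x ^ 2 =
      2 ^ N * ∑ S : Finset (Fin N), (if I ⊆ S then (2 ^ q) ^ 2 * fc (ind f) S ^ 2 else 0) := by
    intro I hI
    have hIq : I.card = q := (Finset.mem_powersetCard.mp hI).2
    have h3 := (hPRS N (dv I (ind f))).1
    have h4 : ∑ x : Fin N → Bool, dv I (ind f) x ^ 2 =
        2 ^ N * ∑ S : Finset (Fin N), fc (dv I (ind f)) S ^ 2 := by
      rw [h3]; field_simp
    rw [h4]
    congr 1
    refine Finset.sum_congr rfl fun S _ => ?_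
    rw [hDRF N I (ind f) S, hIq]
    split_ifs
    · ring
    · norm_num
  have h3 : ∑ x : Fin N → Bool, ∑ I ∈ P, dv I (ind f) x ^ 2 =
      2 ^ N * ∑ S : Finset (Fin N), (S.card.choose q : ℝ) * ((2 ^ q) ^ 2 * fc (ind f) S ^ 2) := by
    rw [Finset.sum_comm, Finset.sum_congr rfl h2, ← Finset.mul_sum, Finset.sum_comm]
    congr 1
    refine Finset.sum_congr rfl fun S _ => ?_
    rw [← Finset.sum_filter, Finset.sum_const, nsmul_eq_mul]
    congr 2
    have : P.filter (fun I => I ⊆ S) = powersetCard q S := by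
      ext I
      simp only [hP, Finset.mem_filter, Finset.mem_powersetCard, Finset.subset_univ, true_and]
      tauto
    rw [this, Finset.card_powersetCard]
  rw [h3] at h1
  refine h1.trans (mul_le_mul_of_nonneg_left ?_ h2N.le)
  have h4 : ∑ S : Finset (Fin N), (S.card.choose q : ℝ) * ((2 ^ q) ^ 2 * fc (ind f) S ^ 2) ≤
      (2 / κ) ^ q * ∑ S : Finset (Fin N), Real.exp (2 * κ * S.card) * fc (ind f) S ^ 2 := by
    rw [Finset.mul_sum]
    refine Finset.sum_le_sum fun S _ => ?_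
    have h5 := FU2.H69.choose_le_exp S.card q κ hκ
    have h6 : Real.exp (2 * κ * S.card) / (2 * κ) ^ q * (2 ^ q) ^ 2 =
        (2 / κ) ^ q * Real.exp (2 * κ * S.card) := by
      rw [div_pow, mul_pow]
      have : (0 : ℝ) < 2 ^ q := by positivity
      have : (0 : ℝ) < κ ^ q := by positivity
      field_simp
    calc (S.card.choose q : ℝ) * ((2 ^ q) ^ 2 * fc (ind f) S ^ 2)
        ≤ Real.exp (2 * κ * S.card) / (2 * κ) ^ q * ((2 ^ q) ^ 2 * fc (ind f) S ^ 2) :=
          mul_le_mul_of_nonneg_right h5 (by positivity)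
      _ = (Real.exp (2 * κ * S.card) / (2 * κ) ^ q * (2 ^ q) ^ 2) * fc (ind f) S ^ 2 := by ring
      _ = (2 / κ) ^ q * (Real.exp (2 * κ * S.card) * fc (ind f) S ^ 2) := by rw [h6]; ring
  refine h4.trans (mul_le_mul_of_nonneg_left hE (by positivity))

theorem nqg (hDEG : DEGStmt) (hCLN : CLNStmt) (hPRS : PRSStmt) (hDRF : DRFStmt) : NQGStmt := by
  intro N q T u s f κ hT hκ h100 hCL hus
  apply nq_of_tail hPRS hDRF N q f κ _ hκ
  set C := 50 * (κ ^ 2 * (T : ℝ) ^ 4) with hC
  have hC0 : 0 ≤ C := by positivity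
  have h1 := hCLN N (Dg T) (Real.exp κ) (Real.exp C) (Real.exp_pos κ) (Real.one_le_exp hC0)
    (fun f hf g => hDEG N T f κ g hT hκ h100 hf) u f hCL (fun _ => (1 : ℝ))
  rw [FU2.H09.wn_one, mul_one] at h1
  have e1 : (fun x => ind f x * (1 : ℝ)) = ind f := by
    funext x
    rw [mul_one]
  rw [e1] at h1
  have e2 : wn (Real.exp κ) (ind f)
      = ∑ S : Finset (Fin N), Real.exp (2 * κ * S.card) * fc (ind f) S ^ 2 := by
    unfold wn
    apply Finset.sum_congr rfl
    intro S _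
    rw [← Real.exp_nat_mul]
    congr 2
    push_cast
    ring
  rw [← e2]
  refine le_trans h1 ?_
  rw [← Real.exp_nat_mul]
  apply Real.exp_le_exp.mpr
  have h7 : (u : ℝ) ≤ s := by exact_mod_cast hus
  calc (u : ℝ) * C ≤ (s : ℝ) * C := mul_le_mul_of_nonneg_right h7 hC0
    _ = C * s := mul_comm _ _

end Pool.Agent.FU3.H56
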